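import Pool.Statements.S10164

/-!
# The Thue choice number is unbounded on graphs of path-width two

`G` is the graph obtained from a path `c_0 c_1 … c_n` by replacing each edge `c_p c_{p+1}` by many
paths `c_p - ℓ - c_{p+1}` of length two. The vertices `c_q` get pairwise disjoint lists of `d` colours,
and between `c_p` and `c_{p+1}` there is, for every `d`-element set `S` of colours, a vertex `ℓ` with
list `S`. In any colouring from these lists the set `A_p` of the colours which do not appear between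
`c_p` and `c_{p+1}` has fewer than `d` elements. On the path
`c_i ℓ_i c_{i+1} ℓ_{i+1} … c_{i+2s} ℓ_{i+2s}` the two halves have odd length `2s+1`, so every `c` of one
half faces an `ℓ` of the other one: if the colouring is nonrepetitive, then some `c_q` and `A_p` with
`i ≤ p, q ≤ i + 2s` and `q + s = p` or `q = p + s + 1` satisfy `f (c_q) ∈ A_p`. Taking, for each `s`,
the `⌊n / (2s+1)⌋` disjoint windows gives `∑_s ⌊n / (2s+1)⌋` distinct pairs `(p, q)` with
`f (c_q) ∈ A_p`, but there are at most `(d-1) n` such pairs. The harmonic series diverges.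
-/

set_option autoImplicit false
open Pool Pool.MP_924390_co

namespace Pool.Agent.S10164

section construction

variable (d n : ℕ)

/-- the `d`-element sets of colours -/
def sets : Finset (Finset ℕ) := (Finset.range ((n + 1) * d)).powersetCard d

/-- the vertices: `inl q` is `c_q`, `inr (p, S)` lies between `c_p` and `c_{p+1}` -/
abbrev Vert : Type := Fin (n + 1) ⊕ (Fin n × {S // S ∈ sets d n})

variable {d n}

/-- the level of a vertex -/
def idx : Vert d n → ℕ
  | Sum.inl q => 2 * q.1
  | Sum.inr p => 2 * p.1.1 + 1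

variable (d n)

/-- the graph: vertices of consecutive levels are adjacent -/
def gr : SimpleGraph (Vert d n) where
  Adj u v := idx u + 1 = idx v ∨ idx v + 1 = idx u
  symm := ⟨fun u v h => h.symm⟩
  loopless := ⟨fun u h => by rcases h with h | h <;> omega⟩

/-- the lists -/
def lst : Vert d n → Finset ℕ
  | Sum.inl q => Finset.Ico (q.1 * d) ((q.1 + 1) * d)
  | Sum.inr p => p.2.1

theorem lst_card (v : Vert d n) : (lst d n v).card = d := by
  rcases v with q | ⟨p, S, hS⟩
  · simp only [lst, Nat.card_Ico]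
    rw [Nat.add_mul]
    omega
  · simp only [lst]
    exact (Finset.mem_powersetCard.1 hS).2

theorem sets_nonempty : (sets d n).Nonempty := by
  rw [sets, Finset.powersetCard_nonempty, Finset.card_range]
  exact Nat.le_mul_of_pos_left d (by omega)

/-- the number of `d`-element sets -/
noncomputable def M : ℕ := (sets d n).card

theorem M_pos : 0 < M d n := Finset.card_pos.2 (sets_nonempty d n)

/-- an enumeration of the `d`-element sets -/
noncomputable def en : {S // S ∈ sets d n} ≃ Fin (M d n) := (sets d n).equivFin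

/-- membership in the bags -/
def inBag (b : ℕ) : Vert d n → Prop
  | Sum.inl q => q.1 = b / M d n ∨ q.1 = b / M d n + 1
  | Sum.inr p => p.1.1 * M d n + (en d n p.2).1 = b

open Classical in
/-- the path-decomposition -/
noncomputable def bag (b : ℕ) : Finset (Vert d n) := Finset.univ.filter (inBag d n b)

theorem mem_bag (b : ℕ) (v : Vert d n) : v ∈ bag d n b ↔ inBag d n b v := by
  simp [bag]

theorem div_aux {m p e : ℕ} (he : e < m) : (p * m + e) / m = p := by
  rw [Nat.mul_comm, Nat.mul_add_div (by omega), Nat.div_eq_of_lt he, Nat.add_zero]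

theorem bag_card (b : ℕ) : (bag d n b).card ≤ 3 := by
  have h3 : (Finset.range 3).card = 3 := Finset.card_range 3
  rw [← h3]
  refine Finset.card_le_card_of_injOn
    (fun v : Vert d n => Sum.elim (fun q : Fin (n + 1) => q.1 - b / M d n) (fun _ => 2) v) ?_ ?_
  · intro v hv
    have hv' := (mem_bag d n b v).1 hv
    rcases v with q | p
    · simp only [inBag] at hv'
      simp only [Sum.elim_inl, Finset.coe_range, Set.mem_Iio]
      omega
    · simp
  · intro v hv w hw h
    have hv' := (mem_bag d n b v).1 hv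
    have hw' := (mem_bag d n b w).1 hw
    rcases v with q | ⟨p, S⟩ <;> rcases w with q' | ⟨p', S'⟩
    · simp only [inBag] at hv' hw'
      simp only [Sum.elim_inl] at h
      congr 1
      apply Fin.ext
      omega
    · simp only [inBag] at hv'
      simp only [Sum.elim_inl, Sum.elim_inr] at h
      omega
    · simp only [inBag] at hw'
      simp only [Sum.elim_inl, Sum.elim_inr] at h
      omega
    · simp only [inBag] at hv' hw'
      have e1 := div_aux (p := p.1) (en d n S).2
      have e2 := div_aux (p := p'.1) (en d n S').2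
      rw [hv'] at e1
      rw [hw'] at e2
      have hp : p = p' := Fin.ext (by omega)
      subst hp
      have hS : en d n S = en d n S' := Fin.ext (by omega)
      rw [(en d n).injective hS]

theorem pathwidth :
    (∀ i, (bag d n i).card ≤ 3) ∧
    (∀ v : Vert d n, ∃ i, v ∈ bag d n i) ∧
    (∀ u v : Vert d n, (gr d n).Adj u v → ∃ i, u ∈ bag d n i ∧ v ∈ bag d n i) ∧
    (∀ (v : Vert d n) (i j k : ℕ), i ≤ j → j ≤ k → v ∈ bag d n i → v ∈ bag d n k →
      v ∈ bag d n j) := by
  have key : ∀ (q : Fin (n + 1)) (p : Fin n) (S : {S // S ∈ sets d n}),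
      (q.1 = p.1 ∨ q.1 = p.1 + 1) →
      (Sum.inl q : Vert d n) ∈ bag d n (p.1 * M d n + (en d n S).1) ∧
      (Sum.inr (p, S) : Vert d n) ∈ bag d n (p.1 * M d n + (en d n S).1) := by
    intro q p S h
    rw [mem_bag, mem_bag]
    simp only [inBag]
    rw [div_aux (en d n S).2]
    exact ⟨h, trivial⟩
  refine ⟨bag_card d n, ?_, ?_, ?_⟩
  · rintro (q | ⟨p, S⟩)
    · refine ⟨q.1 * M d n, ?_⟩
      rw [mem_bag]
      simp only [inBag]
      left
      rw [Nat.mul_div_cancel _ (M_pos d n)]
    · refine ⟨p.1 * M d n + (en d n S).1, ?_⟩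
      rw [mem_bag]
      simp only [inBag]
  · rintro (q | ⟨p, S⟩) (q' | ⟨p', S'⟩) h
    · simp only [gr, idx] at h
      omega
    · simp only [gr, idx] at h
      exact ⟨_, key q p' S' (by omega)⟩
    · simp only [gr, idx] at h
      exact ⟨_, (key q' p S (by omega)).2, (key q' p S (by omega)).1⟩
    · simp only [gr, idx] at h
      omega
  · rintro (q | ⟨p, S⟩) i j k hij hjk hi hk
    · rw [mem_bag] at hi hk ⊢
      simp only [inBag] at hi hk ⊢
      have h1 : i / M d n ≤ j / M d n := Nat.div_le_div_right hij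
      have h2 : j / M d n ≤ k / M d n := Nat.div_le_div_right hjk
      omega
    · rw [mem_bag] at hi hk ⊢
      simp only [inBag] at hi hk ⊢
      omega

end construction

/-- a sequence of consecutively adjacent vertices is a walk -/
theorem exists_walk {V : Type} {G : SimpleGraph V} : ∀ (m : ℕ) (x : ℕ → V),
    (∀ r < m, G.Adj (x r) (x (r + 1))) →
      ∃ p : G.Walk (x 0) (x m), p.length = m ∧ ∀ r ≤ m, p.getVert r = x r := by
  intro m
  induction m with
  | zero =>
    intro x _
    refine ⟨SimpleGraph.Walk.nil, rfl, ?_⟩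
    intro r hr
    obtain rfl : r = 0 := by omega
    simp
  | succ m ih =>
    intro x hx
    obtain ⟨p, hp1, hp2⟩ := ih (fun r => x (r + 1)) (fun r hr => hx (r + 1) (by omega))
    refine ⟨SimpleGraph.Walk.cons (hx 0 (by omega)) p, by simp [hp1], ?_⟩
    intro r hr
    rcases r with _ | r
    · simp
    · rw [SimpleGraph.Walk.getVert_cons_succ]
      exact hp2 r (by omega)

theorem isPath_of_inj {V : Type} {G : SimpleGraph V} {u v : V} (p : G.Walk u v)
    (h : ∀ r s, r ≤ p.length → s ≤ p.length → p.getVert r = p.getVert s → r = s) : p.IsPath := by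
  induction p with
  | nil => exact SimpleGraph.Walk.IsPath.nil
  | @cons u w v hadj p ih =>
    rw [SimpleGraph.Walk.cons_isPath_iff]
    refine ⟨ih ?_, ?_⟩
    · intro r s hr hs hrs
      have := h (r + 1) (s + 1) (by simpa using hr) (by simpa using hs)
        (by rw [SimpleGraph.Walk.getVert_cons_succ, SimpleGraph.Walk.getVert_cons_succ]; exact hrs)
      omega
    · intro hu
      obtain ⟨m, hm, hml⟩ := SimpleGraph.Walk.mem_support_iff_exists_getVert.1 hu
      have := h (m + 1) 0 (by simpa using hml) (by simp)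
        (by rw [SimpleGraph.Walk.getVert_cons_succ, SimpleGraph.Walk.getVert_zero]; exact hm)
      omega

section colouring

variable {d n : ℕ} (f : Vert d n → ℕ)

open Classical in
/-- the colours missing between `c_p` and `c_{p+1}` -/
noncomputable def miss (p : Fin n) : Finset ℕ :=
  (Finset.range ((n + 1) * d)).filter (fun a => ∀ S, f (Sum.inr (p, S)) ≠ a)

theorem miss_card (hf : ∀ v, f v ∈ lst d n v) (p : Fin n) : (miss f p).card < d := by
  classical
  by_contra hcon
  obtain ⟨S, hS, hcard⟩ := Finset.exists_subset_card_eq (Nat.le_of_not_lt hcon)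
  have hmem : S ∈ sets d n := by
    rw [sets, Finset.mem_powersetCard]
    exact ⟨hS.trans (Finset.filter_subset _ _), hcard⟩
  have h1 := hf (Sum.inr (p, ⟨S, hmem⟩))
  simp only [lst] at h1
  have h2 := hS h1
  rw [miss, Finset.mem_filter] at h2
  exact h2.2 ⟨S, hmem⟩ rfl

/-- some `c_q` in the window has a colour missing at a place `p` of the window -/
theorem window (hf : ∀ v, f v ∈ lst d n v)
    (hrep : ∀ (u w : Vert d n) (p : (gr d n).Walk u w), p.IsPath →
      ∀ k : ℕ, 1 ≤ k → p.length + 1 = 2 * k →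
        ¬ (∀ i : ℕ, i < k → f (p.getVert i) = f (p.getVert (i + k))))
    (s i : ℕ) (hi : i + 2 * s < n) :
    ∃ (p : Fin n) (q : Fin (n + 1)), i ≤ p.1 ∧ p.1 ≤ i + 2 * s ∧
      (q.1 + s = p.1 ∨ q.1 = p.1 + s + 1) ∧ f (Sum.inl q) ∈ miss f p := by
  classical
  by_contra hcon
  push Not at hcon
  have hP : ∀ q : Fin (n + 1), f (Sum.inl q) ∈ Finset.range ((n + 1) * d) := by
    intro q
    have h1 := hf (Sum.inl q)
    simp only [lst, Finset.mem_Ico] at h1
    rw [Finset.mem_range]
    refine lt_of_lt_of_le h1.2 ?_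
    exact Nat.mul_le_mul_right d q.2
  -- the vertices `ℓ`
  have hl : ∀ j : ℕ, ∃ v : Vert d n, j ≤ 2 * s → idx v = 2 * (i + j) + 1 ∧
      ∀ q : Fin (n + 1), q.1 = (if j < s then i + j + s + 1 else i + j - s) →
        f v = f (Sum.inl q) := by
    intro j
    by_cases hj : j ≤ 2 * s
    · have hq : (if j < s then i + j + s + 1 else i + j - s) < n + 1 := by
        split_ifs <;> omega
      have h1 := hcon ⟨i + j, by omega⟩ ⟨_, hq⟩ (by simp) (by simp only; omega)
        (by simp only; split_ifs <;> omega)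
      rw [miss, Finset.mem_filter] at h1
      push Not at h1
      obtain ⟨S, hS⟩ := h1 (hP _)
      refine ⟨Sum.inr (⟨i + j, by omega⟩, S), fun _ => ⟨rfl, ?_⟩⟩
      intro q hq'
      rw [hS]
      congr 2
      exact Fin.ext hq'.symm
    · exact ⟨Sum.inl 0, fun h => absurd h hj⟩
  choose l hl' using hl
  let c : ℕ → Vert d n := fun q => if h : q < n + 1 then Sum.inl ⟨q, h⟩ else Sum.inl 0
  have hc : ∀ q (h : q < n + 1), c q = Sum.inl ⟨q, h⟩ := fun q h => by
    simp only [c]
    rw [dif_pos h]
  let x : ℕ → Vert d n := fun r => if r % 2 = 0 then c (i + r / 2) else l (r / 2)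
  have hx0 : ∀ j, x (2 * j) = c (i + j) := by
    intro j
    simp only [x]
    rw [if_pos (by omega)]
    congr 2
    omega
  have hx1 : ∀ j, x (2 * j + 1) = l j := by
    intro j
    simp only [x]
    rw [if_neg (by omega)]
    congr 1
    omega
  have hidx : ∀ r, r ≤ 4 * s + 1 → idx (x r) = 2 * i + r := by
    intro r hr
    rcases Nat.even_or_odd' r with ⟨j, rfl | rfl⟩
    · rw [hx0, hc _ (by omega)]
      simp only [idx]
      ring
    · rw [hx1, (hl' j (by omega)).1]
      ring
  obtain ⟨p, hp1, hp2⟩ := exists_walk (G := gr d n) (4 * s + 1) x (by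
    intro r hr
    simp only [gr]
    left
    rw [hidx r (by omega), hidx (r + 1) (by omega)]
    ring)
  have hpath : p.IsPath := by
    apply isPath_of_inj
    intro r t hr ht h
    rw [hp1] at hr ht
    rw [hp2 r hr, hp2 t ht] at h
    have := congrArg idx h
    rw [hidx r hr, hidx t ht] at this
    omega
  refine hrep _ _ p hpath (2 * s + 1) (by omega) (by rw [hp1]; ring) ?_
  intro r hr
  rw [hp2 r (by omega), hp2 (r + (2 * s + 1)) (by omega)]
  rcases Nat.even_or_odd' r with ⟨j, rfl | rfl⟩
  · have e : 2 * j + (2 * s + 1) = 2 * (j + s) + 1 := by ring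
    rw [e, hx0, hx1, hc _ (by omega)]
    refine ((hl' (j + s) (by omega)).2 _ ?_).symm
    rw [if_neg (by omega)]
    simp only
    omega
  · have e : 2 * j + 1 + (2 * s + 1) = 2 * (j + s + 1) := by ring
    rw [e, hx0, hx1, hc _ (by omega)]
    refine (hl' j (by omega)).2 _ ?_
    rw [if_pos (by omega)]
    simp only
    omega

/-- the count: `∑_s ⌊n / (2s+1)⌋ ≤ (d - 1) n` -/
theorem count (hn : 0 < n) (hf : ∀ v, f v ∈ lst d n v)
    (hrep : ∀ (u w : Vert d n) (p : (gr d n).Walk u w), p.IsPath →
      ∀ k : ℕ, 1 ≤ k → p.length + 1 = 2 * k →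
        ¬ (∀ i : ℕ, i < k → f (p.getVert i) = f (p.getVert (i + k)))) (m : ℕ) :
    ∑ s ∈ Finset.range m, n / (2 * s + 1) ≤ n * (d - 1) := by
  classical
  -- the pairs
  let T : Finset (Fin n × Fin (n + 1)) :=
    Finset.univ.filter (fun z => f (Sum.inl z.2) ∈ miss f z.1)
  have hT : T.card ≤ n * (d - 1) := by
    have h1 : T.card ≤ ∑ p : Fin n, (miss f p).card := by
      have h2 : T.card ≤ ((Finset.univ : Finset (Fin n)).sigma (fun p => miss f p)).card := by
        refine Finset.card_le_card_of_injOn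
          (fun z : Fin n × Fin (n + 1) => (⟨z.1, f (Sum.inl z.2)⟩ : Σ _ : Fin n, ℕ)) ?_ ?_
        · intro z hz
          simp only [T, Finset.coe_filter, Finset.mem_univ, true_and, Set.mem_ofPred_eq] at hz
          simpa using hz
        · rintro ⟨p, q⟩ hz ⟨p', q'⟩ hz' h
          simp only [Sigma.mk.injEq, heq_eq_eq] at h
          obtain ⟨rfl, h⟩ := h
          have h1 := hf (Sum.inl q)
          have h2 := hf (Sum.inl q')
          simp only [lst, Finset.mem_Ico] at h1 h2
          rw [h] at h1
          have h3 : q.1 < q'.1 + 1 := lt_of_mul_lt_mul_right (h1.1.trans_lt h2.2) (Nat.zero_le d)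
          have h4 : q'.1 < q.1 + 1 := lt_of_mul_lt_mul_right (h2.1.trans_lt h1.2) (Nat.zero_le d)
          have h5 : q = q' := Fin.ext (by omega)
          rw [h5]
      rwa [Finset.card_sigma] at h2
    refine h1.trans ?_
    have h3 : ∀ p ∈ (Finset.univ : Finset (Fin n)), (miss f p).card ≤ d - 1 := fun p _ => by
      have := miss_card f hf p
      omega
    refine (Finset.sum_le_card_nsmul _ _ _ h3).trans ?_
    simp
  refine le_trans ?_ hT
  -- the windows
  have hw : ∀ s k : ℕ, ∃ z : Fin n × Fin (n + 1), k < n / (2 * s + 1) →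
      z ∈ T ∧ z.1.1 / (2 * s + 1) = k ∧ (z.2.1 + s = z.1.1 ∨ z.2.1 = z.1.1 + s + 1) := by
    intro s k
    by_cases hk : k < n / (2 * s + 1)
    · have h1 : (k + 1) * (2 * s + 1) ≤ n :=
        (Nat.mul_le_mul_right _ hk).trans (Nat.div_mul_le_self _ _)
      rw [Nat.add_mul] at h1
      obtain ⟨p, q, h2, h3, h4, h5⟩ := window f hf hrep s (k * (2 * s + 1)) (by omega)
      refine ⟨(p, q), fun _ => ⟨by simp [T, h5], ?_, h4⟩⟩
      simp only
      rw [Nat.div_eq_iff (by omega)]
      refine ⟨h2, ?_⟩
      omega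
    · exact ⟨(⟨0, hn⟩, 0), fun h => absurd h hk⟩
  choose z hz using hw
  have hcard : ∑ s ∈ Finset.range m, n / (2 * s + 1) =
      ((Finset.range m).sigma (fun s => Finset.range (n / (2 * s + 1)))).card := by
    rw [Finset.card_sigma]
    simp
  rw [hcard]
  refine Finset.card_le_card_of_injOn (fun y : (Σ _ : ℕ, ℕ) => z y.1 y.2) ?_ ?_
  · rintro ⟨s, k⟩ hy
    simp only [Finset.coe_sigma, Finset.coe_range, Set.mem_sigma_iff, Set.mem_Iio] at hy
    exact (hz s k hy.2).1
  · rintro ⟨s, k⟩ hy ⟨s', k'⟩ hy' h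
    simp only [Finset.coe_sigma, Finset.coe_range, Set.mem_sigma_iff, Set.mem_Iio] at hy hy'
    simp only at h
    obtain ⟨-, h1, h2⟩ := hz s k hy.2
    obtain ⟨-, h1', h2'⟩ := hz s' k' hy'.2
    rw [← h] at h1' h2'
    have hs : s = s' := by omega
    subst hs
    rw [h1] at h1'
    rw [h1']

end colouring

/-- The negation of the preceding statement: There is a constant c such that every finite graph of path-width at most 2 can, from any lists of at least c colours per vertex, be coloured so that no path on 2k vertices has its first-half colour sequence equal to its second-half one. -/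
theorem result :
    ¬ (∃ c : ℕ, ∀ (V : Type) [Fintype V] (G : SimpleGraph V),
      (∃ B : ℕ → Finset V,
        (∀ i, (B i).card ≤ 3) ∧
        (∀ v : V, ∃ i, v ∈ B i) ∧
        (∀ u v : V, G.Adj u v → ∃ i, u ∈ B i ∧ v ∈ B i) ∧
        (∀ (v : V) (i j k : ℕ), i ≤ j → j ≤ k → v ∈ B i → v ∈ B k → v ∈ B j)) →
      ∀ L : V → Finset ℕ, (∀ v, c ≤ (L v).card) →
        ∃ f : V → ℕ, (∀ v, f v ∈ L v) ∧
          ∀ (u w : V) (p : G.Walk u w), p.IsPath →
            ∀ k : ℕ, 1 ≤ k → p.length + 1 = 2 * k →
              ¬ (∀ i : ℕ, i < k → f (p.getVert i) = f (p.getVert (i + k)))) := by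
  rintro ⟨c, hc⟩
  -- `m` with `∑_{s < m} 1 / (2s+1) > c`
  obtain ⟨m, hm⟩ : ∃ m : ℕ, (2 * (c + 1) : ℝ) ≤ ∑ i ∈ Finset.range m, (1 / ((i : ℝ) + 1)) := by
    exact (Real.tendsto_sum_range_one_div_nat_succ_atTop.eventually_ge_atTop _).exists
  have hm' : (c + 1 : ℝ) ≤ ∑ i ∈ Finset.range m, (1 / (2 * (i : ℝ) + 1)) := by
    have h1 : ∑ i ∈ Finset.range m, (1 / ((i : ℝ) + 1)) ≤
        ∑ i ∈ Finset.range m, 2 * (1 / (2 * (i : ℝ) + 1)) := by
      refine Finset.sum_le_sum fun i _ => ?_
      rw [mul_one_div, div_le_div_iff₀ (by positivity) (by positivity)]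
      nlinarith [Nat.cast_nonneg (α := ℝ) i]
    rw [← Finset.mul_sum] at h1
    linarith
  have hmpos : 0 < m := by
    rcases Nat.eq_zero_or_pos m with h | h
    · subst h
      simp at hm'
      have : (0 : ℝ) ≤ c := Nat.cast_nonneg c
      linarith
    · exact h
  obtain ⟨f, hf, hrep⟩ := hc (Vert (c + 1) m) (gr (c + 1) m)
    ⟨bag (c + 1) m, pathwidth (c + 1) m⟩ (lst (c + 1) m)
    (fun v => by rw [lst_card]; omega)
  have h1 := count f hmpos hf hrep m
  rw [Nat.add_sub_cancel] at h1
  -- `∑ ⌊m / (2s+1)⌋ > m (c + 1) - m`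
  have h2 : (m : ℝ) * (c + 1) - m < ∑ s ∈ Finset.range m, ((m / (2 * s + 1) : ℕ) : ℝ) := by
    have h3 : ∀ s ∈ Finset.range m, (m : ℝ) * (1 / (2 * (s : ℝ) + 1)) - 1 <
        ((m / (2 * s + 1) : ℕ) : ℝ) := by
      intro s _
      have h4 : m < (m / (2 * s + 1) + 1) * (2 * s + 1) := by
        exact Nat.lt_mul_of_div_lt (Nat.lt_succ_self _) (by omega)
      have h5 : (m : ℝ) < (((m / (2 * s + 1) : ℕ) : ℝ) + 1) * (2 * (s : ℝ) + 1) := by
        exact_mod_cast h4
      rw [mul_one_div, sub_lt_iff_lt_add, div_lt_iff₀ (by positivity)]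
      exact h5
    have h6 := Finset.sum_lt_sum_of_nonempty (Finset.nonempty_range_iff.2 (by omega)) h3
    rw [Finset.sum_sub_distrib, ← Finset.mul_sum] at h6
    simp only [Finset.sum_const, Finset.card_range, nsmul_eq_mul, mul_one] at h6
    have h7 : (m : ℝ) * (c + 1) ≤ m * ∑ i ∈ Finset.range m, (1 / (2 * (i : ℝ) + 1)) :=
      mul_le_mul_of_nonneg_left hm' (Nat.cast_nonneg m)
    linarith
  have h8 : ((∑ s ∈ Finset.range m, m / (2 * s + 1) : ℕ) : ℝ) ≤ ((m * c : ℕ) : ℝ) := by
    exact_mod_cast h1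
  push_cast at h8 h2
  linarith

end Pool.Agent.S10164
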